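import Mathlib
import Pool.Agent.H42.SSurj

namespace Pool.Agent.Results.MP_6d87e8_lc.Full

universe u

/-- `L` is strongly surjective: it maps onto every nonempty suborder by a weakly
order-preserving surjection. -/
def StronglySurjective (L : Type u) [LinearOrder L] : Prop :=
  ∀ K : Set L, K.Nonempty → ∃ f : L → K, Monotone f ∧ Function.Surjective f

theorem result (L : Type u) [LinearOrder L] (hL : StronglySurjective L) (x : L) :
    StronglySurjective ({x}ᶜ : Set L) :=
  fun K hK => Pool.Agent.H42.SSurj.main hL x K hK

end Pool.Agent.Results.MP_6d87e8_lc.Full
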